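import Pool.Agent.Results.MP_ae0bd0_nt.TwistsX15Multiquadratic
import Pool.Agent.Run7.h238.G15.Inj
import Pool.Agent.Run7.h238.G15.Tw
import Pool.Agent.Run7.h238.G15.LDef

/-!
# The weak Goldfeld conjecture, rank zero, over multiquadratic fields, for the curves with the
# `j`-invariant of `X_0(15)`

Let `E : y² = x³ + a x + b` be an elliptic curve over `ℚ` with `j(E) = 481³ / 15⁴` (the quadratic twists of
`X_0(15)`; no complex multiplication), `E^(d) : y² = x³ + a d² x + b d³`, and `F₀ = ℚ(√m : m ∈ T)`,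
where `T` is any finite set of squarefree numbers congruent to `1` or `49` modulo `60`.

* A positive proportion of ALL squarefree integers `d` have the property: `E^(d)` has analytic rank
  zero over `ℚ` and over EVERY subfield `F` of `F₀`, and `E^(d)(F)` has exactly four elements for all these
  `F`. So for `F₀ = ℚ` the conjecture of the page holds for `E` and `r = 0`.
* For the twist `X_0(15)^(D)`, `D` squarefree, the lower proportion is at least
  `(5 / (192 |D|)) η ^ [F₀ : ℚ]`, `η = ∏_{i ≥ 1} (1 - 2^{-i}) = 0.2888...`.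
* For a proportion of at least `(5 / (192 |D|)) η ^ ([F₀ : ℚ] - 1)` of the `d` the analytic rank and the rank
  of `E^(d)` over all subfields `F` of `F₀` are those over `ℚ`.

The set of the `d` is made of the `d` for which `D d` is `-n` times a square, `n` in the class of
`MP_ae0bd0_nt/TwistsX15Multiquadratic`.
-/

set_option autoImplicit false

open NumberField WeierstrassCurve Filter Topology

namespace Pool.Agent.Results.MP_e587ed_nt.RankZeroOverMultiquadratic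

open Pool.Agent.Results.MP_ae0bd0_nt.TwistsX15Multiquadratic (Mult field η)

/-- The quadratic twist `y² = x³ + a d² x + b d³` by `d` of `y² = x³ + a x + b`. -/
def twist (a b : ℚ) (d : ℤ) : WeierstrassCurve ℚ := ⟨0, 0, 0, a * d ^ 2, b * d ^ 3⟩

/-- The curve `W` over the field `F`. -/
noncomputable abbrev baseF (F : Type) [Field F] [CharZero F] (W : WeierstrassCurve ℚ) :
    WeierstrassCurve F := W.map (Rat.castHom F)

/-- The L-series of the equation `W` over `F` has an entire continuation with order of vanishing `r` at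
`s = 1`. -/
def Order (F : Type) [Field F] [NumberField F] (W : WeierstrassCurve F) (r : ℕ∞) : Prop :=
  ∃ Λ : ℂ → ℂ, Differentiable ℂ Λ ∧ (∀ s : ℂ, 2 < s.re → Λ s = W.LSeries s) ∧
    analyticOrderAt Λ 1 = r

/-- For a rational equation of the curve `W` the analytic rank is zero over `ℚ` and over all subfields `F`
of `F₀`, and the group of points over `F` has four elements. -/
def Zero (F₀ : IntermediateField ℚ ℂ) (W : WeierstrassCurve ℚ) : Prop :=
  ∃ C : VariableChange ℚ, Order ℚ (C • W) 0 ∧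
    ∀ (F : IntermediateField ℚ ℂ) [NumberField F], F ≤ F₀ →
      Order F (baseF F (C • W)) 0 ∧ Nat.card (baseF F (C • W)).toAffine.Point = 4

open Classical in
/-- For a rational equation of the curve `W` the analytic rank and the rank over all subfields `F` of `F₀`
are those over `ℚ`. -/
def Same (F₀ : IntermediateField ℚ ℂ) (W : WeierstrassCurve ℚ) : Prop :=
  ∃ (C : VariableChange ℚ) (r : ℕ∞), Order ℚ (C • W) r ∧
    ∀ (F : IntermediateField ℚ ℂ) [NumberField F], F ≤ F₀ →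
      Order F (baseF F (C • W)) r ∧
      Module.rank ℤ (baseF F (C • W)).toAffine.Point = Module.rank ℤ (C • W).toAffine.Point

/-- The squarefree integers `d` with `|d| < X`. -/
def DD (X : ℝ) : Set ℤ := {d | Squarefree d ∧ |(d : ℝ)| < X}

/-- The number of squarefree integers `d` with `|d| < X`. -/
noncomputable def S (X : ℝ) : ℕ := (DD X).ncard

/-- The number of squarefree integers `d`, `|d| < X`, for which the twist by `d` of `y² = x³ + a x + b` has
the property `P`. -/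
noncomputable def N (P : WeierstrassCurve ℚ → Prop) (a b : ℚ) (X : ℝ) : ℕ :=
  {d ∈ DD X | P (twist a b d)}.ncard

section proof

open Pool.Agent.Results.MP_ae0bd0_nt.TwistsX15Multiquadratic (Class EF Emin Good GoodTwists num
  RankFormula Stable)
open Run7.h238.G15

theorem base_eq (F : Type) [Field F] [CharZero F] (n : ℕ) : baseF F (EF ℚ n) = EF F n := by
  show ((Emin n).map (Int.castRingHom ℚ)).map (Rat.castHom F) = (Emin n).map (Int.castRingHom F)
  rw [WeierstrassCurve.map_map]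
  congr 1
  exact Subsingleton.elim _ _

theorem uniq {F : Type} [Field F] [NumberField F] {W : WeierstrassCurve F} {Λ Λ' : ℂ → ℂ}
    (h1 : Differentiable ℂ Λ) (h2 : ∀ s : ℂ, 2 < s.re → Λ s = W.LSeries s)
    (h1' : Differentiable ℂ Λ') (h2' : ∀ s : ℂ, 2 < s.re → Λ' s = W.LSeries s) : Λ = Λ' := by
  have a1 : AnalyticOnNhd ℂ Λ' Set.univ := fun z _ => h1'.analyticAt z
  have a2 : AnalyticOnNhd ℂ Λ Set.univ := fun z _ => h1.analyticAt z
  refine a2.eq_of_eventuallyEq a1 (z₀ := 3) ?_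
  have h3 : IsOpen {s : ℂ | 2 < s.re} := isOpen_lt continuous_const Complex.continuous_re
  filter_upwards [h3.mem_nhds (by norm_num : (3 : ℂ) ∈ {s : ℂ | 2 < s.re})] with s hs
  rw [h2 s hs, h2' s hs]

theorem rk_inst {M : Type} [Field M] {n : ℕ} (d d' : DecidableEq M) :
    @Module.rank ℤ (EF M n).toAffine.Point _
      (@Affine.Point.instAddCommGroup M _ _ d).toAddCommMonoid
      (@AddCommGroup.toIntModule _ (@Affine.Point.instAddCommGroup M _ _ d)) =
    @Module.rank ℤ (EF M n).toAffine.Point _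
      (@Affine.Point.instAddCommGroup M _ _ d').toAddCommMonoid
      (@AddCommGroup.toIntModule _ (@Affine.Point.instAddCommGroup M _ _ d')) := by
  obtain rfl : d = d' := Subsingleton.elim _ _
  rfl

variable {T : Finset ℕ}

/-- the equation of the twist -/
theorem model {a b t : ℚ} (ha : a = -12987 * t ^ 2) (hb : b = -263466 * t ^ 3) {n : ℕ}
    (hn : Class n) {d : ℤ} {v : ℚ} (hv : v ≠ 0) (hA : t * d = -n * v ^ 2) :
    ∃ C : VariableChange ℚ, C • twist a b d = EF ℚ n := by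
  have h4 : n % 4 = 3 := by
    have := hn.2
    omega
  have h := isModel_sq (n := n) h4 hv hA
  have e : twist a b d = ⟨0, 0, 0, -12987 * (t * d) ^ 2, -263466 * (t * d) ^ 3⟩ := by
    unfold twist
    rw [ha, hb]
    congr 1 <;> ring
  rw [e]
  exact h

theorem same_of (hT : ∀ m ∈ T, Mult m) {n : ℕ} (hn : Class n) (hg : GoodTwists (field T) n)
    {W : WeierstrassCurve ℚ} (hW : ∃ C : VariableChange ℚ, C • W = EF ℚ n) :
    Same (field T) W := by
  obtain ⟨C, hC⟩ := hW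
  obtain ⟨-, -, h2, -⟩ := Pool.Agent.Results.MP_ae0bd0_nt.TwistsX15Multiquadratic.result T hT
  have hb : NumberField (⊥ : IntermediateField ℚ ℂ) := by
    exact NumberField.mk
  obtain ⟨⟨Λ, Λ₀, g1, g2, g3, g4, g5⟩, g6⟩ := h2 n hn hg ⊥ bot_le
  refine ⟨C, analyticOrderAt Λ₀ 1, ?_, fun F _ hF => ?_⟩
  · rw [hC]
    exact ⟨Λ₀, g2, g4, rfl⟩
  · obtain ⟨⟨Λ', Λ₀', k1, k2, k3, k4, k5⟩, k6⟩ := h2 n hn hg F hF
    rw [hC, base_eq]
    refine ⟨⟨Λ', k1, k3, ?_⟩, ?_⟩
    · rw [k5, uniq k2 k4 g2 g4]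
    · exact (rk_inst _ _).trans (k6.2.1.trans (rk_inst _ _))

theorem zero_of (hT : ∀ m ∈ T, Mult m) {n : ℕ} (hn : Class n) (hg : Good (field T) n)
    {W : WeierstrassCurve ℚ} (hW : ∃ C : VariableChange ℚ, C • W = EF ℚ n) :
    Zero (field T) W := by
  have hg' : GoodTwists (field T) n := fun m hm _ hz => hg m hm hz
  obtain ⟨C, hC⟩ := hW
  obtain ⟨-, h1, h2, -⟩ := Pool.Agent.Results.MP_ae0bd0_nt.TwistsX15Multiquadratic.result T hT
  have hb : NumberField (⊥ : IntermediateField ℚ ℂ) := by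
    exact NumberField.mk
  obtain ⟨⟨Λ, Λ₀, g1, g2, g3, g4, g5⟩, g6⟩ := h2 n hn hg' ⊥ bot_le
  obtain ⟨Λ', k1, k2, k3, k4, k5⟩ := h1 n hn hg ⊥ bot_le
  refine ⟨C, ?_, fun F _ hF => ?_⟩
  · rw [hC]
    refine ⟨Λ₀, g2, g4, ?_⟩
    rw [← g5, uniq g1 g3 k1 k2]
    exact analyticOrderAt_eq_zero.2 (Or.inr k4)
  · obtain ⟨Λ', k1, k2, k3, k4, k5⟩ := h1 n hn hg F hF
    rw [hC, base_eq]
    exact ⟨⟨Λ', k1, k2, analyticOrderAt_eq_zero.2 (Or.inr k4)⟩, k5⟩

/-- counting -/
theorem lower {G : ℕ → Prop} {D : ℤ} (hD : Squarefree D) {P : ℤ → Prop}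
    (hP : ∀ n, Class n → G n → P (ee D n)) {X : ℝ} (hX : 0 < X) :
    num G ((⌈X⌉₊ - 1) / D.natAbs) ≤ {d ∈ DD X | P d}.ncard := by
  classical
  have hD0 : 0 < D.natAbs := Int.natAbs_pos.2 hD.ne_zero
  have hfin : {d ∈ DD X | P d}.Finite := by
    refine Set.Finite.subset (Set.finite_Ioo (-(⌈X⌉₊ : ℤ)) ⌈X⌉₊) ?_
    rintro d ⟨⟨_, h1⟩, _⟩
    have h : d.natAbs < ⌈X⌉₊ := by
      rw [Nat.lt_ceil, Nat.cast_natAbs, Int.cast_abs]
      exact h1
    constructor <;> omega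
  set A := (Finset.Icc 1 ((⌈X⌉₊ - 1) / D.natAbs)).filter fun n => Class n ∧ G n with hA
  have h1 : num G ((⌈X⌉₊ - 1) / D.natAbs) = A.card := by
    unfold num
    rw [hA]
  rw [h1, ← Finset.card_image_of_injOn (f := ee D), ← Set.ncard_coe_finset]
  · refine Set.ncard_le_ncard ?_ hfin
    intro d hd
    rw [Finset.mem_coe, Finset.mem_image] at hd
    obtain ⟨n, hn, rfl⟩ := hd
    rw [hA, Finset.mem_filter, Finset.mem_Icc] at hn
    obtain ⟨⟨n1, n2⟩, n3, n4⟩ := hn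
    refine ⟨⟨sqf_ee hD n3.1, ?_⟩, hP n n3 n4⟩
    have h4 := ee_le (D := D) (n := n)
    have h5 : n * D.natAbs ≤ ⌈X⌉₊ - 1 := (Nat.le_div_iff_mul_le hD0).1 n2
    have h6 : 0 < ⌈X⌉₊ := Nat.ceil_pos.2 hX
    have h7 : (ee D n).natAbs < ⌈X⌉₊ := by
      have h8 : ((ee D n).natAbs : ℤ) ≤ ((n * D.natAbs : ℕ) : ℤ) := by
        rw [Int.natCast_natAbs]
        push_cast
        exact h4
      have h9 : (ee D n).natAbs ≤ n * D.natAbs := by exact_mod_cast h8
      omega
    rw [Nat.lt_ceil, Nat.cast_natAbs, Int.cast_abs] at h7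
    exact h7
  · intro a ha b hb h
    rw [Finset.mem_coe, hA, Finset.mem_filter, Finset.mem_Icc] at ha hb
    exact ee_inj hD ha.2.1.1 hb.2.1.1 h

theorem lim_num {G : ℕ → Prop} {L : ℝ}
    (h : Tendsto (fun Y : ℕ => (num G Y : ℝ) / (num (fun _ => True) Y : ℝ)) atTop (𝓝 L)) :
    Tendsto (fun Y : ℕ => (num G Y : ℝ) / Y) atTop (𝓝 (L * (6 / Real.pi ^ 2 * (5 / 96)))) := by
  have hB : ∀ Y, num (fun _ => True) Y = Bb Y := by
    intro Y
    unfold num Bb
    refine congrArg Finset.card (Finset.ext fun n => ?_)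
    simp only [Finset.mem_filter, and_true]
    exact Iff.rfl
  refine (h.mul lim_Bb).congr' ?_
  have hpos := lim_Bb.eventually (lt_mem_nhds (show (0 : ℝ) < 6 / Real.pi ^ 2 * (5 / 96) by positivity))
  filter_upwards [hpos, eventually_gt_atTop 0] with Y hY hY3
  have y0 : (Y : ℝ) ≠ 0 := by exact_mod_cast hY3.ne'
  have b0 : (Bb Y : ℝ) ≠ 0 := by
    intro h
    rw [h] at hY
    simp at hY
  rw [hB Y]
  field_simp

theorem ev {G : ℕ → Prop} {L : ℝ}
    (h : Tendsto (fun Y : ℕ => (num G Y : ℝ) / (num (fun _ => True) Y : ℝ)) atTop (𝓝 L))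
    {D : ℤ} (hD : Squarefree D) {c : ℝ} (hc : c < 5 / (192 * |(D : ℝ)|) * L) {P : ℤ → Prop}
    (hP : ∀ n, Class n → G n → P (ee D n)) :
    ∀ᶠ X : ℝ in atTop, c * S X ≤ {d ∈ DD X | P d}.ncard := by
  have hD0 : 0 < D.natAbs := Int.natAbs_pos.2 hD.ne_zero
  have hDr : (0 : ℝ) < (D.natAbs : ℝ) := by exact_mod_cast hD0
  have hDa : |(D : ℝ)| = (D.natAbs : ℝ) := by
    rw [Nat.cast_natAbs, Int.cast_abs]
  have h0 : Tendsto (fun X : ℝ => (⌈X⌉₊ - 1) / D.natAbs) atTop atTop := by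
    refine (Nat.tendsto_div_const_atTop hD0.ne').comp ?_
    refine (tendsto_sub_atTop_nat 1).comp ?_
    exact tendsto_nat_ceil_atTop
  have h1 := ((lim_num h).comp h0).mul (lim_floor D.natAbs hD0)
  have h2 := lim_DX.const_mul c
  have h3 := h1.sub h2
  have hpos : (0 : ℝ) < L * (6 / Real.pi ^ 2 * (5 / 96)) * (1 / (D.natAbs : ℝ)) -
      c * (12 / Real.pi ^ 2) := by
    rw [hDa] at hc
    have hpi : (0 : ℝ) < 12 / Real.pi ^ 2 := by positivity
    have e : L * (6 / Real.pi ^ 2 * (5 / 96)) * (1 / (D.natAbs : ℝ)) =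
        5 / (192 * (D.natAbs : ℝ)) * L * (12 / Real.pi ^ 2) := by
      field_simp
      ring
    rw [e, ← sub_mul]
    exact mul_pos (by linarith) hpi
  filter_upwards [h3.eventually (lt_mem_nhds hpos), h0.eventually (eventually_gt_atTop 0),
    eventually_gt_atTop 0] with X hX hY hX0
  have y0 : (((⌈X⌉₊ - 1) / D.natAbs : ℕ) : ℝ) ≠ 0 := by exact_mod_cast hY.ne'
  have e1 : (num G ((⌈X⌉₊ - 1) / D.natAbs) : ℝ) / (((⌈X⌉₊ - 1) / D.natAbs : ℕ) : ℝ) *
      ((((⌈X⌉₊ - 1) / D.natAbs : ℕ) : ℝ) / X) = (num G ((⌈X⌉₊ - 1) / D.natAbs) : ℝ) / X := by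
    field_simp
  have h5 : (num G ((⌈X⌉₊ - 1) / D.natAbs) : ℝ) / X - c * (((DX X).ncard : ℝ) / X) > 0 := by
    rw [← e1]
    exact hX
  have h6 : c * ((DX X).ncard : ℝ) < (num G ((⌈X⌉₊ - 1) / D.natAbs) : ℝ) := by
    have h7 : (num G ((⌈X⌉₊ - 1) / D.natAbs) : ℝ) / X - c * (((DX X).ncard : ℝ) / X) =
        ((num G ((⌈X⌉₊ - 1) / D.natAbs) : ℝ) - c * ((DX X).ncard : ℝ)) / X := by
      ring
    rw [h7] at h5
    have h8 := (div_pos_iff_of_pos_right hX0).1 h5
    linarith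
  have h9 : (num G ((⌈X⌉₊ - 1) / D.natAbs) : ℝ) ≤ ({d ∈ DD X | P d}.ncard : ℝ) := by
    exact_mod_cast lower hD hP hX0
  exact h6.le.trans h9

/-- the parameter of a curve with this `j`-invariant -/
theorem par {a b : ℚ} (h0 : 4 * a ^ 3 + 27 * b ^ 2 ≠ 0)
    (hj : 1728 * (4 * a ^ 3) / (4 * a ^ 3 + 27 * b ^ 2) = 481 ^ 3 / 15 ^ 4) :
    ∃ t : ℚ, t ≠ 0 ∧ a = -12987 * t ^ 2 ∧ b = -263466 * t ^ 3 := by
  rw [div_eq_iff h0] at hj
  have ha : a ≠ 0 := by
    rintro rfl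
    have h1 : (27 * b ^ 2) = 0 := by linear_combination (-15 ^ 4 / 481 ^ 3 : ℚ) * hj
    exact h0 (by linear_combination h1)
  have hb : b ≠ 0 := by
    rintro rfl
    have h1 : (4 * a ^ 3) = 0 := by
      linear_combination (1 / (1728 - 481 ^ 3 / 15 ^ 4) : ℚ) * hj
    exact h0 (by linear_combination h1)
  have h : b ^ 2 * (-12987) ^ 3 = a ^ 3 * (-263466) ^ 2 := by
    linear_combination ((-12987) ^ 3 / (-27 * (481 ^ 3 / 15 ^ 4)) : ℚ) * hj
  refine ⟨(b * (-12987)) / (a * (-263466)), ?_, ?_, ?_⟩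
  · exact div_ne_zero (mul_ne_zero hb (by norm_num)) (mul_ne_zero ha (by norm_num))
  · field_simp
    linear_combination -h
  · field_simp
    linear_combination (-1 : ℚ) * h

theorem model' {D : ℤ} (hD : Squarefree D) {u a b t : ℚ} (hu : u ≠ 0) (ht : t = D * u ^ 2)
    (ha : a = -12987 * t ^ 2) (hb : b = -263466 * t ^ 3) {n : ℕ} (hn : Class n) :
    ∃ C : VariableChange ℚ, C • twist a b (ee D n) = EF ℚ n := by
  have hg := ee_mul (D := D) (n := n)
  have hDg : ((D / (Nat.gcd n D.natAbs : ℤ) : ℤ) : ℚ) ≠ 0 := by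
    exact_mod_cast D_ne (n := n) hD
  refine model ha hb hn (v := ((D / (Nat.gcd n D.natAbs : ℤ) : ℤ) : ℚ) * u)
    (mul_ne_zero hDg hu) ?_
  have hg' : ((ee D n : ℤ) : ℚ) * D = -(n : ℚ) * ((D / (Nat.gcd n D.natAbs : ℤ) : ℤ) : ℚ) ^ 2 := by
    exact_mod_cast hg
  rw [ht]
  linear_combination (u ^ 2) * hg'

end proof

theorem result (T : Finset ℕ) (hT : ∀ m ∈ T, Mult m) :
    (∀ a b : ℚ, 4 * a ^ 3 + 27 * b ^ 2 ≠ 0 →
      1728 * (4 * a ^ 3) / (4 * a ^ 3 + 27 * b ^ 2) = 481 ^ 3 / 15 ^ 4 →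
      ∃ c : ℝ, 0 < c ∧ ∀ᶠ X : ℝ in atTop, c * S X ≤ N (Zero (field T)) a b X) ∧
    (∀ D : ℤ, Squarefree D → ∀ c : ℝ,
      c < 5 / (192 * |(D : ℝ)|) * η ^ Module.finrank ℚ (field T) →
      ∀ᶠ X : ℝ in atTop,
        c * S X ≤ N (Zero (field T)) (-12987 * D ^ 2) (-263466 * D ^ 3) X) ∧
    (∀ D : ℤ, Squarefree D → ∀ c : ℝ,
      c < 5 / (192 * |(D : ℝ)|) * η ^ (Module.finrank ℚ (field T) - 1) →
      ∀ᶠ X : ℝ in atTop,
        c * S X ≤ N (Same (field T)) (-12987 * D ^ 2) (-263466 * D ^ 3) X) ∧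
    0.2887 < η ∧ η < 0.2889 := by
  obtain ⟨-, -, -, h3, h4, h5, h6, -⟩ :=
    Pool.Agent.Results.MP_ae0bd0_nt.TwistsX15Multiquadratic.result T hT
  have hη : (0 : ℝ) < η := lt_trans (by norm_num) h5
  refine ⟨fun a b h0 hj => ?_, fun D hD c hc => ?_, fun D hD c hc => ?_, h5, h6⟩
  · obtain ⟨t, ht, ha, hb⟩ := par h0 hj
    obtain ⟨D, hD, u, hu, htD⟩ := Run7.h238.G15.exists_sqf ht
    have hDr : (0 : ℝ) < |(D : ℝ)| := by
      rw [abs_pos]
      exact_mod_cast hD.ne_zero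
    have hpos : 0 < 5 / (192 * |(D : ℝ)|) * η ^ Module.finrank ℚ (field T) := by positivity
    refine ⟨5 / (192 * |(D : ℝ)|) * η ^ Module.finrank ℚ (field T) / 2, by linarith, ?_⟩
    exact ev h3 hD (by linarith) (P := fun d => Zero (field T) (twist a b d))
      fun n hn hg => zero_of hT hn hg (model' hD hu htD ha hb hn)
  · exact ev h3 hD hc (P := fun d => Zero (field T) (twist _ _ d))
      fun n hn hg => zero_of hT hn hg (model' hD one_ne_zero (t := (D : ℚ)) (by ring) rfl rfl hn)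
  · exact ev h4 hD hc (P := fun d => Same (field T) (twist _ _ d))
      fun n hn hg => same_of hT hn hg (model' hD one_ne_zero (t := (D : ℚ)) (by ring) rfl rfl hn)

end Pool.Agent.Results.MP_e587ed_nt.RankZeroOverMultiquadratic
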